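import Pool.Agent.H99.GB.Cov
import Pool.Agent.H99.GB.Mv
import Pool.Agent.H99.GB.Hq
import Pool.Agent.H99.GB.Trf
import Pool.Agent.H67.VU.Pnt3
import Pool.Agent.H24.TS.Mom
import Pool.Agent.H24.TS.Holk

/-!
# [H72 GB FINK]  THEOREM GB with the moment of order `2k`

`ρ = min θ (1/(2k)) - e`, `R = ⌊X^ρ⌋`, `H` from `hq`; `cov` summed over `QQ R` with `mv`; `mom`, `holk`; `trf`.
-/

set_option autoImplicit false

namespace Pool.Agent.H72.GB

open Finset Pool.Agent.H67.VS Pool.Agent.H48.WN Filter Pool.Agent.H99.GB Pool.Agent.H24.TS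

private lemma fin_card (R : ℕ) : (QQ R).card ≤ R := by
  unfold QQ
  refine (card_filter_le _ _).trans ?_
  rw [Nat.card_Ioc]
  omega

private lemma fin_pl (R : ℕ) : ∑ n ∈ Ioc R (2 * R), pl n ≤ ((QQ R).card : ℝ) * Real.log (2 * R) := by
  have h : ∑ n ∈ Ioc R (2 * R), pl n = ∑ q ∈ QQ R, Real.log q := by
    unfold QQ pl
    rw [Finset.sum_filter]
  rw [h, ← nsmul_eq_mul]
  refine Finset.sum_le_card_nsmul _ _ _ fun q hq => ?_
  unfold QQ at hq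
  rw [mem_filter, mem_Ioc] at hq
  have h1 : (0 : ℝ) < q := by exact_mod_cast hq.2.pos
  have h2 : (q : ℝ) ≤ 2 * R := by exact_mod_cast hq.1.2
  exact Real.log_le_log h1 h2

private lemma fin_log (X : ℕ) (hX : 1 ≤ X) : 1 ≤ Real.log (3 * X) := by
  have hX1r : (1 : ℝ) ≤ X := by exact_mod_cast hX
  rw [Real.le_log_iff_exp_le (by linarith)]
  have := Real.exp_one_lt_d9
  linarith

private lemma fin_ET (x H X : ℕ) (hx : x ≤ 2 * X) (hH : H ≤ X) (hX : 1 ≤ X) :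
    |ET x H| ≤ H * Real.log (3 * X) := by
  have h1 := fin_log X hX
  have hH0 : (0 : ℝ) ≤ H := Nat.cast_nonneg _
  have hp0 : ∀ m : ℕ, 0 ≤ pl m := by
    intro m
    unfold pl
    split_ifs with h
    · exact Real.log_natCast_nonneg m
    · exact le_rfl
  have hs0 : 0 ≤ ∑ m ∈ Ioc x (x + H), pl m := Finset.sum_nonneg fun m _ => hp0 m
  have hs1 : ∑ m ∈ Ioc x (x + H), pl m ≤ H * Real.log (3 * X) := by
    have h2 : ∀ m ∈ Ioc x (x + H), pl m ≤ Real.log (3 * X) := by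
      intro m hm
      rw [mem_Ioc] at hm
      unfold pl
      split_ifs with h
      · have h3 : (0 : ℝ) < m := by exact_mod_cast h.pos
        have h4 : (m : ℝ) ≤ 3 * X := by
          have : m ≤ 3 * X := by omega
          exact_mod_cast this
        exact Real.log_le_log h3 h4
      · linarith
    have h3 := Finset.sum_le_card_nsmul _ _ _ h2
    rw [Nat.card_Ioc, nsmul_eq_mul] at h3
    have h4 : x + H - x = H := by omega
    rw [h4] at h3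
    exact h3
  unfold ET
  rw [abs_le]
  constructor <;> nlinarith

private lemma fin_ev (ρ d C : ℝ) (hρ : 0 < ρ) (hd : 0 < d) (hd1 : d ≤ 1) (X1 : ℕ) :
    ∀ᶠ X : ℕ in atTop, X1 ≤ X ∧ 3 ≤ X ∧ (1 - 1 / 2) * (X : ℝ) ≤ ∑ n ∈ Ioc X (2 * X), pl n ∧
      (1 - 1 / 2) * ((⌊(X : ℝ) ^ ρ⌋₊ : ℕ) : ℝ) ≤
        ∑ n ∈ Ioc ⌊(X : ℝ) ^ ρ⌋₊ (2 * ⌊(X : ℝ) ^ ρ⌋₊), pl n ∧
      Real.log (3 * X) ≤ (X : ℝ) ^ d ∧ C ≤ (X : ℝ) ^ d := by
  have hcast : Tendsto (fun X : ℕ => (X : ℝ)) atTop atTop := tendsto_natCast_atTop_atTop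
  have h1 := Pool.Agent.H67.VU.pntA (1 / 2) (by norm_num)
  have hR : Tendsto (fun X : ℕ => ⌊(X : ℝ) ^ ρ⌋₊) atTop atTop :=
    tendsto_nat_floor_atTop.comp ((tendsto_rpow_atTop hρ).comp hcast)
  have h2 := hR.eventually h1
  have h3 : ∀ᶠ X : ℕ in atTop, C ≤ (X : ℝ) ^ d :=
    ((tendsto_rpow_atTop hd).comp hcast).eventually_ge_atTop C
  have h4 : ∀ᶠ y : ℝ in atTop, ‖Real.log y‖ ≤ (1 / 3 : ℝ) * ‖y ^ d‖ :=
    (isLittleO_log_rpow_atTop hd).bound (by norm_num)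
  have h5 : Tendsto (fun X : ℕ => 3 * (X : ℝ)) atTop atTop :=
    hcast.const_mul_atTop (by norm_num)
  have h6 := h5.eventually h4
  filter_upwards [h1, h2, h3, h6, eventually_ge_atTop X1, eventually_ge_atTop 3] with X g1 g2 g3 g6 g7 g8
  refine ⟨g7, g8, g1, g2, ?_, g3⟩
  have hX0 : (0 : ℝ) ≤ X := Nat.cast_nonneg _
  have g9 : ‖(3 * (X : ℝ)) ^ d‖ = (3 * (X : ℝ)) ^ d := Real.norm_of_nonneg (by positivity)
  rw [g9, Real.mul_rpow (by norm_num) hX0] at g6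
  have g10 : (3 : ℝ) ^ d ≤ 3 := by
    have := Real.rpow_le_rpow_of_exponent_le (by norm_num : (1 : ℝ) ≤ 3) hd1
    rwa [Real.rpow_one] at this
  have g11 : (0 : ℝ) ≤ (X : ℝ) ^ d := by positivity
  have g12 := (Real.le_norm_self (Real.log (3 * X))).trans g6
  nlinarith

private lemma fin_T (X H R : ℕ) (y K Θ M T W : ℝ) (hH1 : 1 ≤ H) (hHX : H ≤ X) (hRy : (R : ℝ) ≤ y)
    (h2R : 2 * R ≤ X) (hy0 : 0 < y) (hK1 : 1 ≤ K) (hlog : Real.log (3 * X) ≤ K)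
    (hΘ : Θ = ∑ m ∈ Ioc X (2 * X), pl m) (hM : M = ∑ q ∈ QQ R, cq H q / ((q : ℝ) - 1))
    (hT : T = ∑ i ∈ Ioc X (2 * X), G (QQ R) H i * ET i H)
    (hW : ∑ q ∈ QQ R, SC X q ≤ W) :
    |T + M * Θ| ≤ Real.sqrt (2 * y) * W + 20 * H * y ^ 2 * K := by
  have h1 : T + M * Θ = ∑ q ∈ QQ R, (∑ i ∈ Ioc X (2 * X), ph H q i * ET i H +
      cq H q / ((q : ℝ) - 1) * Θ) := by
    rw [Finset.sum_add_distrib, ← Finset.sum_mul, ← hM, Finset.sum_comm, hT]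
    congr 1
    refine Finset.sum_congr rfl fun i _ => ?_
    unfold G
    rw [Finset.sum_mul]
  have h2 : ∀ q ∈ QQ R, |∑ i ∈ Ioc X (2 * X), ph H q i * ET i H + cq H q / ((q : ℝ) - 1) * Θ| ≤
      Real.sqrt (2 * y) * SC X q + 20 * H * y * K := by
    intro q hqq
    have h3 := hqq
    unfold QQ at h3
    rw [mem_filter, mem_Ioc] at h3
    have hq2 : (q : ℝ) ≤ 2 * y := by
      have : (q : ℝ) ≤ 2 * R := by exact_mod_cast h3.1.2
      linarith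
    have hqX : q ≤ X := by omega
    have h4 := cov X H q h3.2 hqX hH1 hHX
    rw [← hΘ] at h4
    refine h4.trans ?_
    have hSC : 0 ≤ SC X q := by
      unfold SC
      exact Finset.sum_nonneg fun _ _ => norm_nonneg _
    have h5 : Real.sqrt q * SC X q ≤ Real.sqrt (2 * y) * SC X q :=
      mul_le_mul_of_nonneg_right (Real.sqrt_le_sqrt hq2) hSC
    have hl0 : 0 ≤ Real.log (3 * X) := by
      have := fin_log X (hH1.trans hHX)
      linarith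
    have h6 : 10 * (H : ℝ) * q * Real.log (3 * X) ≤ 10 * H * (2 * y) * K := by
      have h7 : 10 * (H : ℝ) * q ≤ 10 * H * (2 * y) :=
        mul_le_mul_of_nonneg_left hq2 (by positivity)
      exact mul_le_mul h7 hlog hl0 (by positivity)
    linarith
  rw [h1]
  refine (Finset.abs_sum_le_sum_abs _ _).trans ((Finset.sum_le_sum h2).trans ?_)
  rw [Finset.sum_add_distrib, Finset.sum_const, nsmul_eq_mul, ← Finset.mul_sum]
  have hQy : ((QQ R).card : ℝ) ≤ y := by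
    have : ((QQ R).card : ℝ) ≤ R := by exact_mod_cast fin_card R
    linarith
  have h9 : ((QQ R).card : ℝ) * (20 * H * y * K) ≤ y * (20 * H * y * K) :=
    mul_le_mul_of_nonneg_right hQy (by positivity)
  have h10 : Real.sqrt (2 * y) * ∑ q ∈ QQ R, SC X q ≤ Real.sqrt (2 * y) * W :=
    mul_le_mul_of_nonneg_left hW (Real.sqrt_nonneg _)
  have h11 : y * (20 * H * y * K) = 20 * H * y ^ 2 * K := by ring
  linarith

private lemma fin_Q (X R : ℕ) (y K : ℝ) (hR1 : 1 ≤ R) (h2R : 2 * R ≤ X) (hRy2 : y / 2 ≤ R) (hK1 : 1 ≤ K)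
    (hlog : Real.log (3 * X) ≤ K)
    (hThR : (1 - 1 / 2) * (R : ℝ) ≤ ∑ n ∈ Ioc R (2 * R), pl n) : y / (4 * K) ≤ ((QQ R).card : ℝ) := by
  have h1 := fin_pl R
  have h2 : Real.log (2 * R) ≤ K := by
    refine le_trans (Real.log_le_log ?_ ?_) hlog
    · have : (1 : ℝ) ≤ R := by exact_mod_cast hR1
      linarith
    · have : 2 * R ≤ 3 * X := by omega
      exact_mod_cast this
  have h3 : ((QQ R).card : ℝ) * Real.log (2 * R) ≤ ((QQ R).card : ℝ) * K :=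
    mul_le_mul_of_nonneg_left h2 (Nat.cast_nonneg _)
  rw [div_le_iff₀ (by positivity)]
  have h4 : ((QQ R).card : ℝ) * (4 * K) = 4 * (((QQ R).card : ℝ) * K) := by ring
  linarith

private lemma fin_a (x y z K H : ℝ) (hx0 : 0 < x) (hy0 : 0 < y) (hz0 : 0 < z) (hK6 : (10 : ℝ) ^ 6 ≤ K)
    (hHzK : H ≤ z * K) (h1 : z * y * K ^ 8 ≤ x) :
    20 * H * y ^ 2 * K ≤ (y * x) / K ^ 2 / 1000 := by
  have hK1 : (1 : ℝ) ≤ K := by linarith
  have hK0 : (0 : ℝ) < K := by linarith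
  rw [le_div_iff₀ (by norm_num), le_div_iff₀ (by positivity)]
  have h2 : 20 * H * y ^ 2 * K * 1000 * K ^ 2 ≤ 20 * (z * K) * y ^ 2 * K * 1000 * K ^ 2 := by
    have h3 : 0 ≤ 20 * y ^ 2 * K * 1000 * K ^ 2 := by positivity
    have h4 := mul_le_mul_of_nonneg_right hHzK h3
    linarith
  refine h2.trans ?_
  have h4 : 20 * (z * K) * y ^ 2 * K * 1000 * K ^ 2 = y * (z * y * K ^ 4 * 20000) := by ring
  rw [h4]
  refine mul_le_mul_of_nonneg_left ?_ hy0.le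
  refine le_trans ?_ h1
  have h6 : (20000 : ℝ) ≤ K ^ 4 := by
    have : K ≤ K ^ 4 := le_self_pow₀ hK1 (by norm_num)
    linarith
  have h7 : z * y * K ^ 8 = z * y * K ^ 4 * K ^ 4 := by ring
  rw [h7]
  exact mul_le_mul_of_nonneg_left h6 (by positivity)

private lemma fin_b (x y K Q M Θ T E2 : ℝ) (hx0 : 0 < x) (hy0 : 0 < y) (hK6 : (10 : ℝ) ^ 6 ≤ K)
    (hQ : y / (4 * K) ≤ Q) (hM : Q / 24 ≤ M) (hΘ : (1 - 1 / 2) * x ≤ Θ)
    (hT : |T + M * Θ| ≤ 2 * (y * x) / K ^ 2 + E2) (hE2 : E2 ≤ (y * x) / K ^ 2 / 1000) :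
    y * x / K ^ 2 ≤ |T| := by
  have hK0 : (0 : ℝ) < K := by linarith
  have h1 : y / (4 * K) / 24 ≤ M := by linarith
  have h2 : (y / (4 * K) / 24) * (x / 2) ≤ M * Θ := by
    refine mul_le_mul h1 (by linarith) (by positivity) (le_trans (by positivity) h1)
  have h3 : (y / (4 * K) / 24) * (x / 2) = (y * x / K ^ 2) * (K / 192) := by
    field_simp
    norm_num
  rw [h3] at h2
  have h4 : M * Θ ≤ |T| + |T + M * Θ| := by
    have h5 := neg_abs_le T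
    have h6 := le_abs_self (T + M * Θ)
    linarith
  have h7 : 0 < y * x / K ^ 2 := by positivity
  have h8 : 2 * (y * x) / K ^ 2 = 2 * (y * x / K ^ 2) := by ring
  rw [h8] at hT
  have h9 : (y * x / K ^ 2) * 4 ≤ (y * x / K ^ 2) * (K / 192) :=
    mul_le_mul_of_nonneg_left (by linarith) h7.le
  linarith

private lemma fin_d (X H : ℕ) (K S E : ℝ) (hX3 : 3 ≤ X) (hH2 : H ^ 2 ≤ X) (hlog : Real.log (3 * X) ≤ K)
    (hS : S = ∑ i ∈ Ioc X (2 * X), |ET i H|) (hE : E = ∑ n ∈ Ioc X (2 * X), |EI n H|) :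
    S ≤ K * E + 2 * X := by
  rw [hS, hE, Finset.mul_sum]
  have h1 : ∀ n ∈ Ioc X (2 * X), |ET n H| ≤ K * |EI n H| + 2 := by
    intro n hn
    rw [mem_Ioc] at hn
    have h2 := trf n H (by omega) (by omega)
    have h3 : |ET n H| ≤ |ET n H - Real.log n * EI n H| + |Real.log n * EI n H| := by
      have h4 := abs_add_le (ET n H - Real.log n * EI n H) (Real.log n * EI n H)
      rwa [sub_add_cancel] at h4
    have h5 : |Real.log n * EI n H| ≤ K * |EI n H| := by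
      rw [abs_mul, abs_of_nonneg (Real.log_natCast_nonneg n)]
      refine mul_le_mul_of_nonneg_right ?_ (abs_nonneg _)
      refine le_trans (Real.log_le_log ?_ ?_) hlog
      · have : 0 < n := by omega
        exact_mod_cast this
      · have : n ≤ 3 * X := by omega
        exact_mod_cast this
    linarith
  refine (Finset.sum_le_sum h1).trans ?_
  rw [Finset.sum_add_distrib, Finset.sum_const, Nat.card_Ioc, nsmul_eq_mul]
  have h2 : 2 * X - X = X := by omega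
  rw [h2]
  linarith

private lemma fin_e (K S E x : ℝ) (hK6 : (10 : ℝ) ^ 6 ≤ K) (hE0 : 0 ≤ E) (hSE : S ≤ K * E + 2 * x)
    (hS4 : 4 * x ≤ S) : S / K ^ 2 ≤ E := by
  have hK0 : (0 : ℝ) < K := by linarith
  have h1 : S / 2 ≤ K * E := by linarith
  rw [div_le_iff₀ (by positivity)]
  have h2 : S ≤ 2 * (K * E) := by linarith
  have h3 : 2 * (K * E) ≤ K * (K * E) :=
    mul_le_mul_of_nonneg_right (by linarith) (by positivity)
  have h4 : E * K ^ 2 = K * (K * E) := by ring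
  linarith

private lemma fin_ck (k : ℕ) (hk : 2 ≤ k) (x y z K S : ℝ) (hx0 : 0 < x) (hy0 : 0 < y) (hz0 : 0 < z)
    (hK0 : 0 < K)
    (h : (y * x / K ^ 2) ^ (2 * k) ≤ (z * K ^ 2) * (K * (x * y ^ k)) * S ^ (2 * k - 1)) :
    x ^ (2 * k - 1) * y ^ k / (z * K ^ (4 * k + 3)) ≤ S ^ (2 * k - 1) := by
  rw [div_le_iff₀ (by positivity)]
  have e1 : x ^ (2 * k) = x ^ (2 * k - 1) * x := by
    rw [← pow_succ]
    congr 1
    omega
  have e2 : y ^ (2 * k) = y ^ k * y ^ k := by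
    rw [← pow_add]
    congr 1
    omega
  have e3 : (K ^ 2) ^ (2 * k) = K ^ (4 * k) := by
    rw [← pow_mul]
    congr 1
    omega
  have e4 : K ^ (4 * k + 3) = K ^ (4 * k) * K ^ 3 := pow_add _ _ _
  have h1 : (y * x / K ^ 2) ^ (2 * k) = (x ^ (2 * k - 1) * y ^ k) * (x * y ^ k / K ^ (4 * k)) := by
    rw [div_pow, mul_pow, e1, e2, e3]
    ring
  have h2 : (z * K ^ 2) * (K * (x * y ^ k)) * S ^ (2 * k - 1) =
      (S ^ (2 * k - 1) * (z * K ^ (4 * k + 3))) * (x * y ^ k / K ^ (4 * k)) := by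
    rw [e4]
    field_simp
  rw [h1, h2] at h
  exact le_of_mul_le_mul_right h (by positivity)

private lemma fin_gk (k X H R : ℕ) (x y K Ck : ℝ) (hX1 : 1 ≤ X) (hR1 : 1 ≤ R) (hx : x = X) (hRy : (R : ℝ) ≤ y)
    (hy4 : y ^ (2 * k) ≤ x) (hy0 : 0 < y) (hx0 : 0 < x) (hCk : 0 < Ck) (hKC : Ck * (1 + 2 ^ (2 * k)) ≤ K)
    (hmom : ∑ x ∈ Ioc X (2 * X), (G (QQ R) H x) ^ (2 * k) ≤
      Ck * ((X : ℝ) + (2 * (R : ℝ)) ^ (2 * k)) * ((QQ R).card : ℝ) ^ k) :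
    ∑ i ∈ Ioc X (2 * X), G (QQ R) H i ^ (2 * k) ≤ K * (x * y ^ k) := by
  refine hmom.trans ?_
  rw [← hx]
  have hQy : ((QQ R).card : ℝ) ≤ y := by
    have : ((QQ R).card : ℝ) ≤ R := by exact_mod_cast fin_card R
    linarith
  have h1 : (R : ℝ) ^ (2 * k) ≤ x := (pow_le_pow_left₀ (Nat.cast_nonneg _) hRy (2 * k)).trans hy4
  have h2 : ((QQ R).card : ℝ) ^ k ≤ y ^ k := pow_le_pow_left₀ (Nat.cast_nonneg _) hQy k
  have h3 : x + (2 * (R : ℝ)) ^ (2 * k) ≤ (1 + 2 ^ (2 * k)) * x := by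
    rw [mul_pow]
    have h4 : (2 : ℝ) ^ (2 * k) * (R : ℝ) ^ (2 * k) ≤ 2 ^ (2 * k) * x :=
      mul_le_mul_of_nonneg_left h1 (by positivity)
    linarith
  have h4 : Ck * (x + (2 * (R : ℝ)) ^ (2 * k)) * ((QQ R).card : ℝ) ^ k ≤
      Ck * ((1 + 2 ^ (2 * k)) * x) * y ^ k :=
    mul_le_mul (mul_le_mul_of_nonneg_left h3 hCk.le) h2 (by positivity) (by positivity)
  have h5 : Ck * (1 + 2 ^ (2 * k)) * (x * y ^ k) ≤ K * (x * y ^ k) :=
    mul_le_mul_of_nonneg_right hKC (by positivity)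
  have h6 : Ck * ((1 + 2 ^ (2 * k)) * x) * y ^ k = Ck * (1 + 2 ^ (2 * k)) * (x * y ^ k) := by ring
  linarith

private lemma fin_hk (k X H R : ℕ) (x y z K S T : ℝ) (hk : 2 ≤ k) (hX1 : 1 ≤ X) (hHX : H ≤ X) (hx0 : 0 < x)
    (hy0 : 0 < y) (hz0 : 0 < z) (hK0 : 0 < K) (hHzK : (H : ℝ) ≤ z * K) (hlog : Real.log (3 * X) ≤ K)
    (hT : T = ∑ i ∈ Ioc X (2 * X), G (QQ R) H i * ET i H) (hS : S = ∑ i ∈ Ioc X (2 * X), |ET i H|)
    (hTl : y * x / K ^ 2 ≤ |T|)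
    (hG4 : ∑ i ∈ Ioc X (2 * X), G (QQ R) H i ^ (2 * k) ≤ K * (x * y ^ k)) :
    (y * x / K ^ 2) ^ (2 * k) ≤ (z * K ^ 2) * (K * (x * y ^ k)) * S ^ (2 * k - 1) := by
  have hS0 : 0 ≤ S := by rw [hS]; exact Finset.sum_nonneg fun _ _ => abs_nonneg _
  have hhol := holk (Ioc X (2 * X)) (fun i => G (QQ R) H i) (fun i => ET i H) (H * Real.log (3 * X)) k
    (by omega) (fun i hi => fin_ET i H X (mem_Ioc.mp hi).2 hHX hX1)
  rw [← hT, ← hS] at hhol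
  have hl0 : 0 ≤ Real.log (3 * X) := by
    have := fin_log X hX1
    linarith
  have hB : (H : ℝ) * Real.log (3 * X) ≤ z * K ^ 2 := by
    have h1 : (H : ℝ) * Real.log (3 * X) ≤ (z * K) * K :=
      mul_le_mul hHzK hlog hl0 (by positivity)
    have h2 : (z * K) * K = z * K ^ 2 := by ring
    linarith
  have heven : ∀ t : ℝ, 0 ≤ t ^ (2 * k) := by
    intro t
    rw [pow_mul]
    positivity
  have hG40 : 0 ≤ ∑ i ∈ Ioc X (2 * X), G (QQ R) H i ^ (2 * k) :=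
    Finset.sum_nonneg fun i _ => heven _
  have h1 : (y * x / K ^ 2) ^ (2 * k) ≤ T ^ (2 * k) := by
    have h2 : T ^ (2 * k) = |T| ^ (2 * k) := by
      rw [pow_mul, pow_mul, sq_abs]
    rw [h2]
    exact pow_le_pow_left₀ (by positivity) hTl (2 * k)
  refine h1.trans (hhol.trans ?_)
  refine mul_le_mul_of_nonneg_right ?_ (by positivity)
  exact mul_le_mul hB hG4 hG40 (by positivity)

/-- THEOREM GB with the moment of order `2k` -/
theorem gbk (k : ℕ) (θ ε c : ℝ) (hk : 2 ≤ k) (hθ0 : 0 < θ) (hθ : θ < 1 / 2) (hε : 0 < ε) (hc : 0 < c) :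
    ∃ X0 : ℕ, ∀ X : ℕ, X0 ≤ X → ∀ A : ℝ, (X : ℝ) ^ θ ≤ A → A ≤ 4 * (X : ℝ) ^ θ →
      ∃ H : ℕ, A ≤ H ∧ (H : ℝ) ≤ (1 + c) * A ∧
        (X : ℝ) ^ (1 + min (((k : ℝ) - 1) * θ) (1 / 2 - θ) / (2 * (k : ℝ) - 1) - ε) ≤
          ∑ n ∈ Ioc X (2 * X), |EI n H| := by
  have hk2 : (2 : ℝ) ≤ k := by exact_mod_cast hk
  obtain ⟨m', hm'⟩ : ∃ m' : ℝ, m' = min (((k : ℝ) - 1) * θ) (1 / 2 - θ) := ⟨_, rfl⟩
  rw [← hm']
  obtain ⟨m, hm⟩ : ∃ m : ℝ, m = m' / (2 * (k : ℝ) - 1) := ⟨_, rfl⟩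
  rw [← hm]
  have h2k : (3 : ℝ) ≤ 2 * (k : ℝ) - 1 := by linarith
  have hm'0 : 0 < m' := by
    rw [hm']
    exact lt_min (mul_pos (by linarith) hθ0) (by linarith)
  have hm'2 : m' ≤ 1 / 2 - θ := by rw [hm']; exact min_le_right _ _
  have hmm : m * (2 * (k : ℝ) - 1) = m' := by
    rw [hm]
    field_simp
  have hm0 : 0 < m := by rw [hm]; positivity
  have hm3 : m * 3 ≤ m' := by
    rw [← hmm]
    exact mul_le_mul_of_nonneg_left h2k hm0.le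
  obtain ⟨μ, hμ⟩ : ∃ μ : ℝ, μ = min θ (1 / (2 * (k : ℝ))) := ⟨_, rfl⟩
  have hμ0 : 0 < μ := by rw [hμ]; exact lt_min hθ0 (by positivity)
  have hμθ : μ ≤ θ := by rw [hμ]; exact min_le_left _ _
  have hμk : (k : ℝ) * μ ≤ 1 / 2 := by
    have h1 : μ ≤ 1 / (2 * (k : ℝ)) := by rw [hμ]; exact min_le_right _ _
    have h2 : (k : ℝ) * μ ≤ k * (1 / (2 * (k : ℝ))) := mul_le_mul_of_nonneg_left h1 (by linarith)
    have h3 : (k : ℝ) * (1 / (2 * (k : ℝ))) = 1 / 2 := by field_simp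
    linarith
  have hμ4 : μ ≤ 1 / 4 := by
    have h1 : 2 * μ ≤ k * μ := mul_le_mul_of_nonneg_right hk2 hμ0.le
    linarith
  have hμm : (k : ℝ) * μ - θ = m' := by
    rcases le_total θ (1 / (2 * (k : ℝ))) with h | h
    · rw [hμ, min_eq_left h, hm', min_eq_left]
      · ring
      · rw [le_div_iff₀ (by positivity)] at h
        linarith
    · rw [hμ, min_eq_right h, hm', min_eq_right]
      · field_simp
      · rw [div_le_iff₀ (by positivity)] at h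
        linarith
  obtain ⟨e, he⟩ : ∃ e : ℝ, e = min (μ / 2) (min (m / 8) (ε / 12)) := ⟨_, rfl⟩
  have he0 : 0 < e := by rw [he]; exact lt_min (by linarith) (lt_min (by linarith) (by linarith))
  have he3 : e ≤ μ / 2 := by rw [he]; exact min_le_left _ _
  have he1 : e ≤ m / 8 := by rw [he]; exact (min_le_right _ _).trans (min_le_left _ _)
  have he2 : e ≤ ε / 12 := by rw [he]; exact (min_le_right _ _).trans (min_le_right _ _)
  obtain ⟨ρ, hρ⟩ : ∃ ρ : ℝ, ρ = μ - e := ⟨_, rfl⟩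
  have hρm : (k : ℝ) * ρ - θ = m' - k * e := by
    rw [hρ, ← hμm]
    ring
  have hρ0 : e ≤ ρ := by linarith
  have hρ4 : ρ < 1 / 4 := by linarith
  have hρk : (k : ℝ) * ρ ≤ 1 / 2 := by
    have h1 : (k : ℝ) * ρ ≤ k * μ := mul_le_mul_of_nonneg_left (by linarith) (by linarith)
    linarith
  have hρθ : ρ + e ≤ θ := by linarith
  have hρp : 0 < ρ := by linarith
  obtain ⟨η, hη, X1, hmv⟩ := mv ρ hρp hρ4
  obtain ⟨d, hd⟩ : ∃ d : ℝ, d = min e (min (η / 2) (1 / 32)) := ⟨_, rfl⟩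
  have hd0 : 0 < d := by rw [hd]; exact lt_min he0 (lt_min (by linarith) (by norm_num))
  have hd1 : d ≤ e := by rw [hd]; exact min_le_left _ _
  have hd2 : d ≤ η / 2 := by rw [hd]; exact (min_le_right _ _).trans (min_le_left _ _)
  have hd3 : d ≤ 1 / 32 := by rw [hd]; exact (min_le_right _ _).trans (min_le_right _ _)
  have hke : (k : ℝ) * e + (7 - 4 * k) * d ≤ 2 / 3 * (2 * k - 1) * e := by
    have h1 : 2 * e ≤ k * e := mul_le_mul_of_nonneg_right hk2 he0.le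
    have h2 : 0 ≤ ((k : ℝ) - 2) * d := mul_nonneg (by linarith) hd0.le
    have h3 : (7 - 4 * (k : ℝ)) * d = -(4 * (((k : ℝ) - 2) * d)) - d := by ring
    have h4 : 2 / 3 * (2 * (k : ℝ) - 1) * e = k * e + 1 / 3 * (k * e) - 2 / 3 * e := by ring
    rw [h3, h4]
    linarith
  clear hd he hm' hμ
  obtain ⟨Ck, hCk, hmom⟩ := mom k
  obtain ⟨C, hC⟩ : ∃ C : ℝ, C = 10 ^ 6 * (1 + c) + 5 / c + Ck * (1 + 2 ^ (2 * k)) := ⟨_, rfl⟩
  obtain ⟨X0, hX0⟩ := (fin_ev ρ d C hρp hd0 (by linarith) X1).exists_forall_of_atTop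
  refine ⟨X0, fun X hX A hA1 hA2 => ?_⟩
  obtain ⟨hXX1, hX3, hTh, hThR, hlog, hCK⟩ := hX0 X hX
  clear hX0
  obtain ⟨x, hx⟩ : ∃ x : ℝ, x = (X : ℝ) := ⟨_, rfl⟩
  obtain ⟨K, hK⟩ : ∃ K : ℝ, K = (X : ℝ) ^ d := ⟨_, rfl⟩
  obtain ⟨R, hR⟩ : ∃ R : ℕ, R = ⌊(X : ℝ) ^ ρ⌋₊ := ⟨_, rfl⟩
  obtain ⟨y, hy⟩ : ∃ y : ℝ, y = (X : ℝ) ^ ρ := ⟨_, rfl⟩
  obtain ⟨z, hz⟩ : ∃ z : ℝ, z = (X : ℝ) ^ θ := ⟨_, rfl⟩
  rw [← hK] at hlog hCK
  rw [← hR] at hThR
  rw [← hz] at hA1 hA2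
  have hX1 : 1 ≤ X := by omega
  have hx3 : (3 : ℝ) ≤ x := by rw [hx]; exact_mod_cast hX3
  have hx1 : (1 : ℝ) ≤ x := by linarith
  have hx0 : (0 : ℝ) < x := by linarith
  have hc1 : 0 < 5 / c := by positivity
  have hc2 : 0 < Ck * (1 + 2 ^ (2 * k)) := by positivity
  have hKc : 10 ^ 6 * (1 + c) ≤ K := by linarith
  have hKC : Ck * (1 + 2 ^ (2 * k)) ≤ K := by
    have h1 : 0 ≤ 10 ^ 6 * (1 + c) := by positivity
    linarith
  have hK6 : (10 : ℝ) ^ 6 ≤ K := by linarith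
  have hK1 : (1 : ℝ) ≤ K := by linarith
  have hK0 : (0 : ℝ) < K := by linarith
  have hcK : 5 ≤ c * K := by
    have h1 : 5 / c ≤ K := by linarith
    rw [div_le_iff₀ hc] at h1
    linarith
  -- powers
  have hKd : ∀ n : ℕ, K ^ n = x ^ (n * d) := by
    intro n
    rw [hK, ← Real.rpow_natCast, ← Real.rpow_mul (by rw [← hx]; exact hx0.le), ← hx, mul_comm]
  have hy0 : 0 < y := by rw [hy, ← hx]; positivity
  have hz0 : 0 < z := by rw [hz, ← hx]; positivity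
  have hyK : K ≤ y := by
    rw [hK, hy, ← hx]
    exact Real.rpow_le_rpow_of_exponent_le hx1 (by linarith)
  have hyz : y * K ≤ z := by
    rw [hK, hy, hz, ← hx, ← Real.rpow_add hx0]
    exact Real.rpow_le_rpow_of_exponent_le hx1 (by linarith)
  have hzx : z * K ≤ x := by
    rw [hK, hz, ← hx, ← Real.rpow_add hx0]
    refine (Real.rpow_le_rpow_of_exponent_le hx1 (by linarith : θ + d ≤ 1)).trans ?_
    rw [Real.rpow_one]
  have hzx2 : (z * K) ^ 2 ≤ x := by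
    rw [hK, hz, ← hx, ← Real.rpow_add hx0, ← Real.rpow_natCast, ← Real.rpow_mul hx0.le]
    refine (Real.rpow_le_rpow_of_exponent_le hx1
      (by push_cast; linarith : (θ + d) * ((2 : ℕ) : ℝ) ≤ 1)).trans ?_
    rw [Real.rpow_one]
  have hy4 : y ^ (2 * k) ≤ x := by
    rw [hy, ← hx, ← Real.rpow_natCast, ← Real.rpow_mul hx0.le]
    refine (Real.rpow_le_rpow_of_exponent_le hx1
      (by push_cast; linarith : ρ * ((2 * k : ℕ) : ℝ) ≤ 1)).trans ?_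
    rw [Real.rpow_one]
  have hzK : z ≤ z * K := le_mul_of_one_le_right hz0.le hK1
  have hyx : y * K ≤ x := hyz.trans (hzK.trans hzx)
  -- the length R
  have hRy : (R : ℝ) ≤ y := by
    rw [hR, hy]
    exact Nat.floor_le (by rw [← hx]; positivity)
  have hRy2 : y / 2 ≤ R := by
    have h1 : y < R + 1 := by
      rw [hR, hy]
      exact Nat.lt_floor_add_one _
    linarith
  have hR1 : 1 ≤ R := by
    have h1 : (1 : ℝ) ≤ R := by linarith
    exact_mod_cast h1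
  have h2y : y * 2 ≤ y * K := mul_le_mul_of_nonneg_left (by linarith) hy0.le
  have h2R : 2 * R ≤ X := by
    have h1 : 2 * (R : ℝ) ≤ X := by rw [← hx]; linarith
    exact_mod_cast h1
  have hQl := fin_Q X R y K hR1 h2R hRy2 hK1 hlog hThR
  -- the good length
  have hA0 : 0 ≤ A := hz0.le.trans hA1
  have hL : 4 * R ≤ ⌊c * A⌋₊ := by
    apply Nat.le_floor
    push_cast
    have h1 : c * (y * K) ≤ c * A := mul_le_mul_of_nonneg_left (hyz.trans hA1) hc.le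
    have h2 : y * 5 ≤ y * (c * K) := mul_le_mul_of_nonneg_left hcK hy0.le
    linarith
  obtain ⟨H, hH, hHq⟩ := hq R ⌈A⌉₊ ⌊c * A⌋₊ hR1 hL
  rw [mem_Ico] at hH
  have hHA : A ≤ H := (Nat.le_ceil A).trans (by exact_mod_cast hH.1)
  have hHA2 : (H : ℝ) ≤ (1 + c) * A := by
    have h1 : (H : ℝ) + 1 ≤ (⌈A⌉₊ : ℝ) + (⌊c * A⌋₊ : ℝ) := by exact_mod_cast hH.2
    have h2 : (⌈A⌉₊ : ℝ) < A + 1 := Nat.ceil_lt_add_one hA0
    have h3 : (⌊c * A⌋₊ : ℝ) ≤ c * A := Nat.floor_le (by positivity)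
    linarith
  refine ⟨H, hHA, hHA2, ?_⟩
  have hHz : (H : ℝ) ≤ (1 + c) * (4 * z) :=
    hHA2.trans (mul_le_mul_of_nonneg_left hA2 (by linarith))
  have hHzK : (H : ℝ) ≤ z * K := by
    have h1 : z * (4 * (1 + c)) ≤ z * K := mul_le_mul_of_nonneg_left (by linarith) hz0.le
    linarith
  have hH1r : (1 : ℝ) ≤ H := by
    have h1 : y * 1 ≤ y * K := mul_le_mul_of_nonneg_left hK1 hy0.le
    linarith
  have hH1 : 1 ≤ H := by exact_mod_cast hH1r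
  have hHX : H ≤ X := by
    have h1 : (H : ℝ) ≤ X := by rw [← hx]; linarith
    exact_mod_cast h1
  have hH2 : H ^ 2 ≤ X := by
    have h1 : (H : ℝ) ^ 2 ≤ X := by
      rw [← hx]
      exact (pow_le_pow_left₀ (by linarith) hHzK 2).trans hzx2
    exact_mod_cast h1
  -- the covariance
  obtain ⟨Θ, hΘ⟩ : ∃ Θ : ℝ, Θ = ∑ m ∈ Ioc X (2 * X), pl m := ⟨_, rfl⟩
  obtain ⟨M, hM⟩ : ∃ M : ℝ, M = ∑ q ∈ QQ R, cq H q / ((q : ℝ) - 1) := ⟨_, rfl⟩
  obtain ⟨T, hT⟩ : ∃ T : ℝ, T = ∑ i ∈ Ioc X (2 * X), G (QQ R) H i * ET i H := ⟨_, rfl⟩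
  rw [← hΘ, ← hx] at hTh
  rw [← hM] at hHq
  have hmvX := hmv X hXX1
  rw [← hR] at hmvX
  have hT1 := fin_T X H R y K Θ M T _ hH1 hHX hRy h2R hy0 hK1 hlog hΘ hM hT hmvX
  have h4 : Real.sqrt (2 * y) ≤ 2 * Real.sqrt y := by
    rw [Real.sqrt_mul (by norm_num)]
    have h5 : Real.sqrt 2 ≤ 2 := by
      rw [Real.sqrt_le_left (by norm_num)]
      norm_num
    exact mul_le_mul_of_nonneg_right h5 (Real.sqrt_nonneg _)
  have h5 : Real.sqrt y = x ^ (ρ / 2) := by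
    rw [hy, ← hx, Real.sqrt_eq_rpow, ← Real.rpow_mul hx0.le]
    congr 1
    ring
  have h6 : Real.sqrt (2 * y) * (X : ℝ) ^ (1 + ρ / 2 - η) ≤ 2 * (y * x) / K ^ 2 := by
    have h7 : Real.sqrt (2 * y) * (X : ℝ) ^ (1 + ρ / 2 - η) ≤
        (2 * x ^ (ρ / 2)) * x ^ (1 + ρ / 2 - η) := by
      rw [← h5, ← hx]
      exact mul_le_mul_of_nonneg_right h4 (by positivity)
    refine h7.trans ?_
    have h8 : x ^ ρ * x = x ^ (ρ + 1) := by rw [Real.rpow_add hx0, Real.rpow_one]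
    rw [le_div_iff₀ (by positivity), hKd, hy, ← hx, mul_assoc, mul_assoc, ← Real.rpow_add hx0,
      ← Real.rpow_add hx0, h8]
    refine mul_le_mul_of_nonneg_left (Real.rpow_le_rpow_of_exponent_le hx1 ?_) (by norm_num)
    push_cast
    linarith
  have hTM : |T + M * Θ| ≤ 2 * (y * x) / K ^ 2 + 20 * H * y ^ 2 * K := by linarith
  have h8K : z * y * K ^ 8 ≤ x := by
    rw [hKd, hy, hz, ← hx, ← Real.rpow_add hx0, ← Real.rpow_add hx0]
    refine (Real.rpow_le_rpow_of_exponent_le hx1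
      (by push_cast; linarith : θ + ρ + ((8 : ℕ) : ℝ) * d ≤ 1)).trans ?_
    rw [Real.rpow_one]
  have hE2' := fin_a x y z K H hx0 hy0 hz0 hK6 hHzK h8K
  have hTl := fin_b x y K _ M Θ T _ hx0 hy0 hK6 hQl hHq hTh hTM hE2'
  -- Hoelder
  obtain ⟨S, hS⟩ : ∃ S : ℝ, S = ∑ i ∈ Ioc X (2 * X), |ET i H| := ⟨_, rfl⟩
  have hS0 : 0 ≤ S := by rw [hS]; exact Finset.sum_nonneg fun _ _ => abs_nonneg _
  have hG4 := fin_gk k X H R x y K Ck hX1 hR1 hx hRy hy4 hy0 hx0 hCk hKC (hmom X H R hX1 hR1)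
  have hT4 := fin_hk k X H R x y z K S T hk hX1 hHX hx0 hy0 hz0 hK0 hHzK hlog hT hS hTl hG4
  have hS3 := fin_ck k hk x y z K S hx0 hy0 hz0 hK0 hT4
  have hSl : x ^ (1 + m - 2 / 3 * e - 4 * d) ≤ S := by
    have h1 : (x ^ (1 + m - 2 / 3 * e - 4 * d)) ^ (2 * k - 1) ≤ S ^ (2 * k - 1) := by
      refine le_trans ?_ hS3
      have hcast : ((2 * k - 1 : ℕ) : ℝ) = 2 * (k : ℝ) - 1 := by
        rw [Nat.cast_sub (by omega)]
        push_cast
        ring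
      rw [le_div_iff₀ (by positivity), hKd, hy, hz, ← hx, ← Real.rpow_natCast, ← Real.rpow_mul hx0.le,
        ← Real.rpow_natCast (x ^ ρ), ← Real.rpow_mul hx0.le, ← Real.rpow_natCast x (2 * k - 1),
        ← Real.rpow_add hx0, ← Real.rpow_add hx0, ← Real.rpow_add hx0, hcast]
      refine Real.rpow_le_rpow_of_exponent_le hx1 ?_
      push_cast
      have h2 : (1 + m - 2 / 3 * e - 4 * d) * (2 * (k : ℝ) - 1) =
          (2 * (k : ℝ) - 1) + m * (2 * (k : ℝ) - 1) - 2 / 3 * (2 * k - 1) * e - (8 * k - 4) * d := by ring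
      rw [h2, hmm]
      have h3 : (4 * (k : ℝ) + 3) * d = (7 - 4 * k) * d + (8 * k - 4) * d := by ring
      have h4 : ρ * (k : ℝ) = k * ρ := mul_comm _ _
      rw [h3, h4]
      linarith
    exact le_of_pow_le_pow_left₀ (by omega) hS0 h1
  -- logarithmic weights
  obtain ⟨E, hE⟩ : ∃ E : ℝ, E = ∑ n ∈ Ioc X (2 * X), |EI n H| := ⟨_, rfl⟩
  have hSE := fin_d X H K S E hX3 hH2 hlog hS hE
  rw [← hE]
  rw [← hx] at hSE ⊢
  have hS4 : 4 * x ≤ S := by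
    refine le_trans ?_ hSl
    have h1 : x * K ≤ x ^ (1 + m - 2 / 3 * e - 4 * d) := by
      have h2 : x * K = x ^ (1 + d) := by
        rw [Real.rpow_add hx0, Real.rpow_one, hK, ← hx]
      rw [h2]
      exact Real.rpow_le_rpow_of_exponent_le hx1 (by linarith)
    have h3 : x * 4 ≤ x * K := mul_le_mul_of_nonneg_left (by linarith) hx0.le
    linarith
  have hE0 : 0 ≤ E := by rw [hE]; exact Finset.sum_nonneg fun _ _ => abs_nonneg _
  refine le_trans ?_ (fin_e K S E x hK6 hE0 hSE hS4)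
  rw [le_div_iff₀ (by positivity)]
  refine le_trans ?_ hSl
  rw [hKd, ← Real.rpow_add hx0]
  refine Real.rpow_le_rpow_of_exponent_le hx1 ?_
  push_cast
  linarith

end Pool.Agent.H72.GB
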